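import Pool.Agent.T2H63.DML.Perturb

/-!
# Dynamical Mordell-Lang from one good invariant fibre
-/

set_option autoImplicit false

open MvPolynomial

namespace Pool.Agent.Results.MP_295d38_ag.OneGoodInvariantFibre

/-- The self-map of `ℂ^N` given by the polynomials `F i`. -/
noncomputable def selfMap {N : ℕ} (F : Fin N → MvPolynomial (Fin N) ℂ) (v : Fin N → ℂ) : Fin N → ℂ :=
  fun i => eval v (F i)

/-- The differential of the map at `v` is not invertible. -/
def IsCritical {N : ℕ} (F : Fin N → MvPolynomial (Fin N) ℂ) (v : Fin N → ℂ) : Prop :=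
  (Matrix.of fun i j : Fin N => eval v (pderiv j (F i))).det = 0

/-- Zariski closed subsets of `ℂ^N`. -/
def IsClosedSet {N : ℕ} (X : Set (Fin N → ℂ)) : Prop :=
  ∃ I : Set (MvPolynomial (Fin N) ℂ), X = {v | ∀ f ∈ I, eval v f = 0}

/-- All points of `Z` at which the differential of `F` is not invertible are in the union of finitely
many closed sets `C j`, and for every `j` there are a closed set `Y j`, disjoint from `C j` in `Z`,
with `F (Y j ∩ Z) ⊆ Y j`, and an `m` with `F^m (C j ∩ Z) ⊆ Y j`. -/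
def StrictlyPreperiodicCritical {N : ℕ} (F : Fin N → MvPolynomial (Fin N) ℂ)
    (Z : Set (Fin N → ℂ)) : Prop :=
  ∃ (r : ℕ) (C Y : Fin r → Set (Fin N → ℂ)), (∀ j, IsClosedSet (C j)) ∧ (∀ j, IsClosedSet (Y j)) ∧
    (∀ v ∈ Z, IsCritical F v → ∃ j, v ∈ C j) ∧
    (∀ j, ∀ v ∈ Z, v ∈ Y j → selfMap F v ∈ Y j) ∧
    (∀ j, ∃ m : ℕ, ∀ v ∈ Z, v ∈ C j → (selfMap F)^[m] v ∈ Y j) ∧
    (∀ j, ∀ v ∈ Z, v ∈ C j → v ∉ Y j)

/-- Finite unions of arithmetic progressions `{a + b k : k ≥ 0}`, where `b = 0` is allowed. -/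
def IsFiniteUnionAP (R : Set ℕ) : Prop :=
  ∃ T : Finset (ℕ × ℕ), R = {n : ℕ | ∃ q ∈ T, ∃ k : ℕ, n = q.1 + q.2 * k}

/-- **Dynamical Mordell-Lang from one good invariant fibre.** Let `Φ` be a polynomial self-map of
`ℂ^N`, `X` a closed subset with `Φ(X) ⊆ X`, and let `P : ℂ^N → ℂ` be a polynomial with `P ∘ Φ = g ∘ P`
on `X` for a polynomial `g` in one variable. Let `Ω` be a finite set of complex numbers with
`g(Ω) ⊆ Ω` which is not totally invariant (`g` maps a point outside `Ω` into `Ω`; for a cycle `Ω` of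
a polynomial `g` of degree at least two this means that `g` is not `ω + c (x - ω)^d` with `Ω = {ω}`).
Suppose that `Φ` has no critical points in the fibres of `P` over `Ω` (in `X`), or that these
critical points are strictly preperiodic in the sense above.

Then for every point `α` of `X` such that `P(α)` is not preperiodic under `g` and for every closed set
`V` the set of all `n` with `Φ^n(α) ∈ V` is a finite union of arithmetic progressions. There is no
condition on `Φ` outside of the fibres over `Ω`. -/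
theorem result (N : ℕ) (F : Fin N → MvPolynomial (Fin N) ℂ) (X : Set (Fin N → ℂ))
    (hX : IsClosedSet X) (hinv : ∀ v ∈ X, selfMap F v ∈ X)
    (P : MvPolynomial (Fin N) ℂ) (g : Polynomial ℂ)
    (hsemi : ∀ v ∈ X, eval (selfMap F v) P = g.eval (eval v P))
    (Ω : Finset ℂ) (hne : Ω.Nonempty) (hΩ : ∀ ω ∈ Ω, g.eval ω ∈ Ω)
    (hnot : ∃ ζ : ℂ, ζ ∉ Ω ∧ g.eval ζ ∈ Ω)
    (hgood : StrictlyPreperiodicCritical F {v | v ∈ X ∧ eval v P ∈ Ω})
    (α : Fin N → ℂ) (hα : α ∈ X)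
    (hwander : Function.Injective fun n : ℕ => (fun y => g.eval y)^[n] (eval α P))
    (V : Set (Fin N → ℂ)) (hV : IsClosedSet V) :
    IsFiniteUnionAP {n : ℕ | (selfMap F)^[n] α ∈ V} := by
  classical
  obtain ⟨I, hI⟩ := hX
  obtain ⟨W, rfl⟩ := hV
  obtain ⟨ω, hω⟩ := hne
  obtain ⟨ζ, hζ, hζΩ⟩ := hnot
  obtain ⟨r, C, Y, hC, hY, hcrit, hYinv, hCY, hdisj⟩ := hgood
  choose IC hIC using hC
  choose IY hIY using hY
  choose m hm using hCY
  obtain ⟨T, hT⟩ := Pool.Agent.T2H63.DML.perturb F I X hI hinv P g hsemi Ω hΩ ω ζ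
    (fun h => hζ (h ▸ hω)) (hΩ ω hω) hζΩ IC IY C Y hIC hIY
    (fun j v hv hP hj => hYinv j v ⟨hv, hP⟩ hj) m (fun j v hv hP hj => hm j v ⟨hv, hP⟩ hj)
    (fun j v hv hP hj => hdisj j v ⟨hv, hP⟩ hj) (fun v hv hP hj => hcrit v ⟨hv, hP⟩ hj)
    α hα hwander W
  refine ⟨T.image fun q => (q.2, q.1), ?_⟩
  have hT' : {n : ℕ | (selfMap F)^[n] α ∈ {v | ∀ f ∈ W, eval v f = 0}} =
      {n : ℕ | ∃ q ∈ T, ∃ k : ℕ, n = q.1 * k + q.2} := hT
  rw [hT']
  ext n
  rw [Set.mem_ofPred_eq, Set.mem_ofPred_eq]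
  constructor
  · rintro ⟨q, hq, k, hk⟩
    exact ⟨(q.2, q.1), Finset.mem_image.2 ⟨q, hq, rfl⟩, k, by rw [hk]; ring⟩
  · rintro ⟨q, hq, k, hk⟩
    obtain ⟨q', hq', rfl⟩ := Finset.mem_image.1 hq
    exact ⟨q', hq', k, by rw [hk]; ring⟩

end Pool.Agent.Results.MP_295d38_ag.OneGoodInvariantFibre
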