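import Pool.Agent.T2H63.DML.Trans

/-!
# Dynamical Mordell-Lang for maps whose critical locus is strictly preperiodic
-/

set_option autoImplicit false

open MvPolynomial

namespace Pool.Agent.Results.MP_295d38_ag.StrictlyPreperiodicCriticalLocus

/-- The self-map of `ℂ^N` given by the polynomials `F i`. -/
noncomputable def selfMap {N : ℕ} (F : Fin N → MvPolynomial (Fin N) ℂ) (v : Fin N → ℂ) : Fin N → ℂ :=
  fun i => eval v (F i)

/-- The differential of the map at `v` is not invertible. -/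
def IsCritical {N : ℕ} (F : Fin N → MvPolynomial (Fin N) ℂ) (v : Fin N → ℂ) : Prop :=
  (Matrix.of fun i j : Fin N => eval v (pderiv j (F i))).det = 0

/-- Zariski closed subsets of `ℂ^N`. -/
def IsClosedSet {N : ℕ} (X : Set (Fin N → ℂ)) : Prop :=
  ∃ I : Set (MvPolynomial (Fin N) ℂ), X = {v | ∀ f ∈ I, eval v f = 0}

/-- Finite unions of arithmetic progressions `{a + b k : k ≥ 0}`, where `b = 0` is allowed. -/
def IsFiniteUnionAP (R : Set ℕ) : Prop :=
  ∃ T : Finset (ℕ × ℕ), R = {n : ℕ | ∃ q ∈ T, ∃ k : ℕ, n = q.1 + q.2 * k}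

/-- **Dynamical Mordell-Lang for maps whose critical locus is strictly preperiodic.** Let `Φ` be a
polynomial self-map of `ℂ^N` and `X` a closed subset with `Φ(X) ⊆ X`. Suppose that all critical points
of `Φ` in `X` are in the union of finitely many closed sets `C_j`, and that for every `j` there are a
closed set `Y_j` with `Φ(Y_j ∩ X) ⊆ Y_j` and `C_j ∩ Y_j ∩ X = ∅` and an `m` with
`Φ^m(C_j ∩ X) ⊆ Y_j`. Then for every point `α` of `X` and every closed set `V` the set of all `n` with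
`Φ^n(α) ∈ V` is a finite union of arithmetic progressions. -/
theorem result (N : ℕ) (F : Fin N → MvPolynomial (Fin N) ℂ) (X : Set (Fin N → ℂ))
    (hX : IsClosedSet X) (hinv : ∀ v ∈ X, selfMap F v ∈ X)
    (r : ℕ) (C Y : Fin r → Set (Fin N → ℂ)) (hC : ∀ j, IsClosedSet (C j))
    (hY : ∀ j, IsClosedSet (Y j))
    (hcrit : ∀ v ∈ X, IsCritical F v → ∃ j, v ∈ C j)
    (hYinv : ∀ j, ∀ v ∈ X, v ∈ Y j → selfMap F v ∈ Y j)
    (hCY : ∀ j, ∃ m : ℕ, ∀ v ∈ X, v ∈ C j → (selfMap F)^[m] v ∈ Y j)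
    (hdisj : ∀ j, ∀ v ∈ X, v ∈ C j → v ∉ Y j)
    (α : Fin N → ℂ) (hα : α ∈ X) (V : Set (Fin N → ℂ)) (hV : IsClosedSet V) :
    IsFiniteUnionAP {n : ℕ | (selfMap F)^[n] α ∈ V} := by
  classical
  obtain ⟨I, hI⟩ := hX
  obtain ⟨W, rfl⟩ := hV
  choose IC hIC using hC
  choose IY hIY using hY
  choose m hm using hCY
  obtain ⟨T, hT⟩ := Pool.Agent.T2H63.DML.strict F I X hI hinv IC IY C Y hIC hIY hYinv m hm hdisj
    hcrit α hα W
  refine ⟨T.image fun q => (q.2, q.1), ?_⟩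
  have hT' : {n : ℕ | (selfMap F)^[n] α ∈ {v | ∀ f ∈ W, eval v f = 0}} =
      {n : ℕ | ∃ q ∈ T, ∃ k : ℕ, n = q.1 * k + q.2} := hT
  rw [hT']
  ext n
  rw [Set.mem_ofPred_eq, Set.mem_ofPred_eq]
  constructor
  · rintro ⟨q, hq, k, hk⟩
    exact ⟨(q.2, q.1), Finset.mem_image.2 ⟨q, hq, rfl⟩, k, by rw [hk]; ring⟩
  · rintro ⟨q, hq, k, hk⟩
    obtain ⟨q', hq', rfl⟩ := Finset.mem_image.1 hq
    exact ⟨q', hq', k, by rw [hk]; ring⟩

end Pool.Agent.Results.MP_295d38_ag.StrictlyPreperiodicCriticalLocus
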