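import Pool.Agent.T2H39.UE.Emb

/-!
# MP_295d38_ag: uniform dynamical Mordell-Lang for étale orbits

Let `R ⊂ ℂ` be a finitely generated ring, `N, d ≥ 0`. We show that there is a single period `L`, and
for every `D` a bound `B`, such that for **all** polynomial self-maps `f` of `𝔸^N` of degree at most
`d` with coefficients in `R`, **all** points `a ∈ R^N` whose orbit is eventually étale over `R` (the
Jacobian determinant of `f` at `f^n(a)` is a unit of `R` for all large `n`; for example all points
if `f` is an automorphism over `R`, or if the Jacobian determinant of `f` is a unit of `R`), and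
**all** closed sets `V` of `ℂ^N` that are defined by (any number of) complex polynomials of degree at
most `D`, the return set `{n : f^n(a) ∈ V}` is a union of at most `B` arithmetic progressions, each
of which is a singleton or has common difference `L`. In particular every finite return set has at
most `B` elements.

The same holds for every ring `R ⊂ ℂ` (not necessarily finitely generated) which is mapped to the
ring of integers of a finite extension `E` of `ℚ_p` by some field embedding `τ` of `ℂ` in the
algebraic closure of `ℚ_p`. For instance for all `f` and `a` over the ring `ℤ_(p)` of the rational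
numbers with denominator prime to `p`, if `p` does not divide the Jacobian determinant of `f` at
`f^n(a)` for large `n`; this holds for all `a` for a positive proportion of the integral `f` of
degree at most `d`.

By adding coordinates one gets the same uniformity for closed sets that vary with `n`
(`{n : g(n, λ^n, f^n(a)) = 0}`, `λ ∈ R^×`), for non-autonomous étale systems
`x ↦ f(n, x)`, and for simultaneous orbits `{n : h(f_1^n(a_1), …, f_k^n(a_k)) = 0}`.

Proof. Embed `R` into the integers `O` of a `p`-adic field. The orbits of all `f`, `a` are orbits of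
one polynomial self-map `Φ` of an affine space over `O` (the coefficients of `f` are coordinates).
As `O/p^4` is finite there are `L` and `N_0` such that on all étale orbits, from the index `N_0` on,
`Φ^L` is the identity modulo `p^4` and has trivial derivative modulo `p^4`. So for each of finitely
many residue classes, in the coordinate scaled by `π = p^2`, `Φ^L` is a polynomial map `h = X + π w`.
For a polynomial `q` over `A = O[v]`, `v` being the coefficients of the equation of `V`, put
`q_0 = q`, `q_{k+1} = (q_k ∘ h - q_k)/π`; the values `q(h^n(u))` are `∑ binom(n, k) π^k q_k(u)`. By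
Hilbert's basis theorem all `q_k` are in the ideal of `q_0, …, q_m` for some `m`, so that
`|q_k(u)| ≤ max_{i ≤ m} |q_i(u)|` for all `u` and all `v`, and by a Strassmann argument the function
`n ↦ q(h^n(u))` vanishes identically or has at most `2 m` zeros. The dependence of the closed set on
complex coefficients is removed by linear functionals over the fraction field of `R`.
-/

set_option autoImplicit false

open MvPolynomial

namespace Pool.Agent.Results.MP_295d38_ag.UniformEtale

variable {N : ℕ}

/-- The polynomial self-map of `ℂ^N`. -/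
noncomputable def selfMap (f : Fin N → MvPolynomial (Fin N) ℂ) (x : Fin N → ℂ) : Fin N → ℂ :=
  fun i => eval x (f i)

/-- The Jacobian determinant of the self-map at `x`. -/
noncomputable def jacobianDet (f : Fin N → MvPolynomial (Fin N) ℂ) (x : Fin N → ℂ) : ℂ :=
  (Matrix.of fun i j => eval x (pderiv j (f i))).det

/-- The self-map has degree at most `d` and coefficients in `R`. -/
def DefinedOver (R : Subring ℂ) (d : ℕ) (f : Fin N → MvPolynomial (Fin N) ℂ) : Prop :=
  ∀ i, (f i).totalDegree ≤ d ∧ ∀ m, (f i).coeff m ∈ R

/-- The Jacobian determinant is a unit of `R` at all iterates of `a` of large index. -/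
def EventuallyEtale (R : Subring ℂ) (f : Fin N → MvPolynomial (Fin N) ℂ) (a : Fin N → ℂ) : Prop :=
  ∃ n₁ : ℕ, ∀ n, n₁ ≤ n → ∃ y ∈ R, jacobianDet f ((selfMap f)^[n] a) * y = 1

/-- The set of the `n` such that the `n`-th iterate of `a` is a common zero of `S`. -/
def returnSet (f : Fin N → MvPolynomial (Fin N) ℂ) (a : Fin N → ℂ)
    (S : Set (MvPolynomial (Fin N) ℂ)) : Set ℕ :=
  {n : ℕ | ∀ g ∈ S, eval ((selfMap f)^[n] a) g = 0}

/-- The uniform dynamical Mordell-Lang property of the étale orbits over `R` of the self-maps of
`𝔸^N` of degree at most `d`. -/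
def UniformDML (R : Subring ℂ) (N d : ℕ) : Prop :=
  ∃ L : ℕ, 0 < L ∧ ∀ D : ℕ, ∃ B : ℕ,
    ∀ f : Fin N → MvPolynomial (Fin N) ℂ, DefinedOver R d f →
    ∀ a : Fin N → ℂ, (∀ i, a i ∈ R) → EventuallyEtale R f a →
    ∀ S : Set (MvPolynomial (Fin N) ℂ), (∀ g ∈ S, g.totalDegree ≤ D) →
      ∃ T : Finset (ℕ × ℕ), T.card ≤ B ∧ (∀ q ∈ T, q.2 = 0 ∨ q.2 = L) ∧
        returnSet f a S = {n | ∃ q ∈ T, ∃ k : ℕ, n = q.1 + q.2 * k}

/-- **Uniform dynamical Mordell-Lang for étale orbits** over rings which are mapped to the integers
of a `p`-adic field, and over all finitely generated rings. -/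
theorem result :
    (∀ (p : ℕ) [Fact p.Prime] (E : IntermediateField ℚ_[p] (PadicAlgCl p))
      [FiniteDimensional ℚ_[p] E] (τ : ℂ →+* PadicAlgCl p) (R : Subring ℂ),
      (∀ z ∈ R, τ z ∈ E ∧ ‖τ z‖ ≤ 1) → ∀ N d : ℕ, UniformDML R N d) ∧
    ∀ (s : Finset ℂ) (N d : ℕ), UniformDML (Subring.closure (s : Set ℂ)) N d := by
  have h1 : ∀ (p : ℕ) [Fact p.Prime] (E : IntermediateField ℚ_[p] (PadicAlgCl p))
      [FiniteDimensional ℚ_[p] E] (τ : ℂ →+* PadicAlgCl p) (R : Subring ℂ),
      (∀ z ∈ R, τ z ∈ E ∧ ‖τ z‖ ≤ 1) → ∀ N d : ℕ, UniformDML R N d := by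
    intro p _ E _ τ R hR N d
    obtain ⟨L, hL, h⟩ := Pool.Agent.T2H39.UE.uniform_of_fam R N d
      (Pool.Agent.T2H39.UE.fam_subring E τ R hR (Fin N))
    refine ⟨L, hL, fun D => ?_⟩
    obtain ⟨B, hB⟩ := h D
    exact ⟨B, fun f hf a ha hu S hS =>
      hB f (fun i => (hf i).1) (fun i => (hf i).2) a ha hu S hS⟩
  refine ⟨h1, fun s N d => ?_⟩
  obtain ⟨p, hp, E, hE, τ, hτ⟩ := Pool.Agent.T2H39.UE.exists_integral s
  exact h1 p E τ _ hτ N d

end Pool.Agent.Results.MP_295d38_ag.UniformEtale
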