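import Pool.Agent.T2H39.UG.Main

set_option autoImplicit false

/-!
# Dynamical Mordell-Lang for closed sets of dimension at most one: uniform gap principles

Self-maps of projective space given by forms of degree `d ≥ 2` over a field `K`, closed sets of
dimension at most one over an extension `L` of `K`, and bounds which do not depend on the starting
point.
-/

namespace Pool.Agent.Results.MP_295d38_ag.UniformGapForCurves

open MvPolynomial Height

variable {K L : Type} [Field K] [Field L] [Algebra K L] {N : ℕ}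

/-- The self-map of affine `(N + 1)`-space given by the polynomials `f 0, …, f N`. -/
noncomputable def polyMap (f : Fin (N + 1) → MvPolynomial (Fin (N + 1)) K)
    (x : Fin (N + 1) → K) : Fin (N + 1) → K :=
  fun i => eval x (f i)

/-- The return set: all `n` such that all members of `V` (polynomials over the extension field
`L`) vanish at the `n`-th iterate of the point `a`. -/
def returnSet (f : Fin (N + 1) → MvPolynomial (Fin (N + 1)) K)
    (V : Set (MvPolynomial (Fin (N + 1)) L)) (a : Fin (N + 1) → K) : Set ℕ :=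
  {n | ∀ g ∈ V, eval (fun i => algebraMap K L ((polyMap f)^[n] a i)) g = 0}

/-- `V` is a set of forms, and the closed subset of projective space which it defines has dimension
at most one: any three of the homogeneous coordinates satisfy a nontrivial polynomial relation on
it. -/
def DimLeOne (V : Set (MvPolynomial (Fin (N + 1)) L)) : Prop :=
  (∀ g ∈ V, ∃ e : ℕ, g.IsHomogeneous e) ∧
  ∀ i j l : Fin (N + 1), ∃ P : MvPolynomial (Fin 3) L, P ≠ 0 ∧
    ∀ z : Fin (N + 1) → L, (∀ g ∈ V, eval z g = 0) → eval ![z i, z j, z l] P = 0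

lemma polyMap_eq (f : Fin (N + 1) → MvPolynomial (Fin (N + 1)) K) :
    polyMap f = Pool.Agent.R847.HG.stepR (R := K) f := by
  funext x i
  simp only [polyMap, Pool.Agent.R847.HG.stepR]
  rw [← MvPolynomial.coe_aeval_eq_eval]
  rfl

lemma returnSet_eq (f : Fin (N + 1) → MvPolynomial (Fin (N + 1)) K)
    (V : Set (MvPolynomial (Fin (N + 1)) L)) (a : Fin (N + 1) → K) :
    returnSet f V a = T2H39.UG.ret f V a := by
  unfold returnSet T2H39.UG.ret
  rw [polyMap_eq]

/-- **Uniform gap principles for closed sets of dimension at most one.** -/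
theorem result :
    -- (1) a bound for the density in all intervals, over all infinite fields
    (∀ (K L : Type) [Field K] [Infinite K] [Field L] [Algebra K L] (N d : ℕ), 2 ≤ d →
      ∀ (f : Fin (N + 1) → MvPolynomial (Fin (N + 1)) K), (∀ i, (f i).IsHomogeneous d) →
      ∀ (V : Set (MvPolynomial (Fin (N + 1)) L)), DimLeOne V →
      ∃ (k : ℕ) (C : ℝ), 0 < k ∧ ∀ a : Fin (N + 1) → K,
        -- the orbit is defined and infinite as an orbit in projective space
        (∀ m n, m < n → ∀ c : K, (polyMap f)^[n] a ≠ c • (polyMap f)^[m] a) →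
        ∃ A B : Set ℕ, returnSet f V a = A ∪ B ∧ (∀ n ∈ A, n + k ∈ A) ∧
          ∀ M n : ℕ, 2 ≤ n → ((B ∩ Set.Ico M (M + n)).ncard : ℝ) ≤ C * (n / Real.log n)) ∧
    -- (2) number fields, rational self-maps, points whose heights grow exponentially
    (∀ (K L : Type) [Field K] [NumberField K] [Field L] [Algebra K L] (N d : ℕ), 2 ≤ d →
      ∀ (f : Fin (N + 1) → MvPolynomial (Fin (N + 1)) K), (∀ i, (f i).IsHomogeneous d) →
      ∀ (V : Set (MvPolynomial (Fin (N + 1)) L)), DimLeOne V →
      ∃ (s k : ℕ) (E : ℝ), 0 < k ∧ 1 ≤ E ∧ ∀ (a : Fin (N + 1) → K) (c r : ℝ) (n₀ : ℕ),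
        0 < c → 1 < r → (∀ n, (polyMap f)^[n] a ≠ 0) →
        (∀ n, n₀ ≤ n → c * r ^ n ≤ logHeight ((polyMap f)^[n] a)) →
        ∃ (A : Set ℕ) (B : Fin s → Set ℕ),
          returnSet f V a = A ∪ ⋃ i, B i ∧ (∀ n ∈ A, n + k ∈ A) ∧
          ∀ i, ∀ m ∈ B i, ∀ n ∈ B i, m < n →
            (1 + Real.logb d r) * (m : ℝ) ≤
              n + ((1 + Real.logb d r) * n₀ + |Real.logb d (E / c)|)) ∧
    -- (3) number fields, endomorphisms of projective space, all points
    (∀ (K : Type) [Field K] [NumberField K] [Algebra K ℂ] (N d : ℕ), 2 ≤ d →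
      ∀ (f : Fin (N + 1) → MvPolynomial (Fin (N + 1)) K), (∀ i, (f i).IsHomogeneous d) →
      (∀ x : Fin (N + 1) → ℂ, (∀ i, aeval x (f i) = 0) → x = 0) →
      ∀ (V : Set (MvPolynomial (Fin (N + 1)) ℂ)), DimLeOne V →
      ∃ (s k : ℕ) (C : ℝ), 0 < k ∧ 0 ≤ C ∧ ∀ a : Fin (N + 1) → K, a ≠ 0 →
        ∃ (A : Set ℕ) (B : Fin s → Set ℕ),
          returnSet f V a = A ∪ ⋃ i, B i ∧ (∀ n ∈ A, n + k ∈ A) ∧
          (∀ i, ∀ m ∈ B i, ∀ n ∈ B i, m < n →
            2 * (m : ℝ) + Real.logb d (max 1 (logHeight a)) ≤ n + C) ∧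
          ∀ X : ℕ, (({n | n ≤ X} ∩ ⋃ i, B i).ncard : ℝ) ≤ s * (C + 3 + Real.logb 2 (X + 1))) := by
  refine ⟨?_, ?_, ?_⟩
  · intro K L _ _ _ _ N d hd f hf V hV
    obtain ⟨k, C, hk, h⟩ := T2H39.UG.density_gap hd f hf V hV.1 hV.2
    refine ⟨k, C, hk, fun a ha => ?_⟩
    rw [polyMap_eq] at ha
    rw [returnSet_eq]
    exact h a ha
  · intro K L _ _ _ _ N d hd f hf V hV
    obtain ⟨s, k, E, hk, hE, h⟩ := T2H39.UG.growth_gap hd f hf V hV.1 hV.2
    refine ⟨s, k, E, hk, hE, fun a c r n₀ hc hr hne hgr => ?_⟩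
    rw [polyMap_eq] at hne hgr
    rw [returnSet_eq]
    exact h a c r n₀ hc hr hne hgr
  · intro K _ _ _ N d hd f hf h0 V hV
    have h0' : ∀ x : Fin (N + 1) → AlgebraicClosure K, (∀ i, aeval x (f i) = 0) → x = 0 := by
      intro x hx
      set φ : AlgebraicClosure K →ₐ[K] ℂ := IsAlgClosed.lift
      have h1 : (fun i => φ (x i)) = 0 := by
        apply h0
        intro i
        have h2 : aeval (fun i => φ (x i)) (f i) = φ (aeval x (f i)) := by
          rw [← AlgHom.comp_apply]
          congr 1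
          apply MvPolynomial.algHom_ext
          intro j
          simp
        rw [h2, hx i, map_zero]
      funext i
      apply φ.injective
      rw [Pi.zero_apply, map_zero]
      exact congrFun h1 i
    obtain ⟨s, k, C, hk, hC, h⟩ := T2H39.UG.uniform_gap hd f hf h0' V hV.1 hV.2
    refine ⟨s, k, C, hk, hC, fun a ha => ?_⟩
    obtain ⟨A, B, h1, h2, h3⟩ := h a ha
    rw [returnSet_eq]
    refine ⟨A, B, h1, h2, h3, fun X => ?_⟩
    apply T2H39.UG.card_union
    intro i
    have h4 := T2H39.UG.card_gap (r := 2) (C := C) one_lt_two hC (B i) (by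
      intro m hm n hn hmn
      have h5 := h3 i m hm n hn hmn
      have h6 : 0 ≤ Real.logb d (max 1 (logHeight a)) :=
        Real.logb_nonneg (by exact_mod_cast (show 1 < d by omega)) (le_max_left _ _)
      linarith) X
    have h5 : C / (2 - 1) = C := by norm_num
    rwa [h5] at h4

end Pool.Agent.Results.MP_295d38_ag.UniformGapForCurves
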